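import Pool.Agent.Lib.MP_fd6bc6_al.Mg.G008
import Pool.Agent.Lib.MP_fd6bc6_al.Mg.G007

/-! # From block cells to lists of leaf functions -/

set_option autoImplicit false

namespace Pool.Agent.MP_fd6bc6_al.BU

open Finsupp

section leaves
variable {n m : ℕ} {V : Type*}

theorem mem_leaves (l : Fin n × Fin m) : l ∈ leaves n m := by
  unfold leaves
  rw [List.mem_flatMap]
  exact ⟨l.1, List.mem_finRange _, List.mem_map.2 ⟨l.2, List.mem_finRange _, rfl⟩⟩

theorem leaves_pairwise :
    (leaves n m).Pairwise (fun p p' => p.1 < p'.1 ∨ (p.1 = p'.1 ∧ p.2 < p'.2)) := by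
  unfold leaves
  rw [List.pairwise_flatMap]
  constructor
  · intro i _
    rw [List.pairwise_map]
    exact (List.pairwise_lt_finRange m).imp fun h => Or.inr ⟨rfl, h⟩
  · refine (List.pairwise_lt_finRange n).imp fun h => ?_
    intro x hx y hy
    obtain ⟨s, _, rfl⟩ := List.mem_map.1 hx
    obtain ⟨s', _, rfl⟩ := List.mem_map.1 hy
    exact Or.inl h

theorem ini_prefix {p r : List (Fin n × Fin m)} (h : leaves n m = p ++ r) : Ini p.toFinset := by
  intro i s s' hs hi
  rw [List.mem_toFinset] at hi ⊢
  have h1 : (i, s') ∈ p ++ r := by rw [← h]; exact mem_leaves _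
  rcases List.mem_append.1 h1 with h2 | h2
  · exact h2
  · exfalso
    have h3 := leaves_pairwise (n := n) (m := m)
    rw [h, List.pairwise_append] at h3
    rcases h3.2.2 _ hi _ h2 with h4 | h4
    · exact lt_irrefl _ h4
    · exact absurd hs (not_le.2 h4.2)

theorem Mon.sublist {t t' : List V} {h : Fin m → V} (hm : Mon t h) (ht : t.Sublist t') :
    Mon t' h := by
  obtain ⟨φ, h1, h2⟩ := hm
  obtain ⟨e, he⟩ := List.sublist_iff_exists_orderEmbedding_getElem?_eq.1 ht
  exact ⟨fun s => e (φ s), fun a b hab => e.monotone (h1 hab), fun s => by rw [← he, h2]⟩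

theorem Mon.mem {t : List V} {h : Fin m → V} (hm : Mon t h) (s : Fin m) : h s ∈ t := by
  obtain ⟨φ, _, h2⟩ := hm
  exact List.mem_of_getElem? (h2 s)

theorem Mon.const {t : List V} {b : V} (hb : t[0]? = some b) : Mon t (fun _ : Fin m => b) :=
  ⟨fun _ => 0, fun _ _ _ => le_rfl, fun _ => hb⟩

theorem Mon.sweep {t : List V} {h : Fin m → V} (hm : Mon t h) {b : V} (hb : t[0]? = some b)
    (P : Fin m → Prop) [DecidablePred P] (hP : ∀ s s', s' ≤ s → P s → P s') :
    Mon t (fun s => if P s then b else h s) := by
  obtain ⟨φ, h1, h2⟩ := hm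
  refine ⟨fun s => if P s then 0 else φ s, fun a c hac => ?_, fun s => ?_⟩
  · by_cases ha : P a
    · simp [ha]
    · have hc : ¬ P c := fun hc => ha (hP c a hac hc)
      simp only [ha, hc, if_false]
      exact h1 hac
  · by_cases hs : P s
    · simp only [hs, if_true]
      exact hb
    · simp only [hs, if_false]
      exact h2 s

theorem Mon.interval {t : List V} {h : Fin m → V} (hm : Mon t h) (ht : t.Nodup) {s s' s'' : Fin m}
    (he : h s = h s') (h1 : s ≤ s'') (h2 : s'' ≤ s') : h s'' = h s := by
  obtain ⟨φ, h3, h4⟩ := hm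
  have h5 := h4 s
  have h6 := h4 s'
  rw [← he] at h6
  obtain ⟨h7, h7'⟩ := List.getElem?_eq_some_iff.1 h5
  obtain ⟨h8, h8'⟩ := List.getElem?_eq_some_iff.1 h6
  have h9 : φ s = φ s' := (List.Nodup.getElem_inj_iff ht).1 (h7'.trans h8'.symm)
  have h10 : φ s'' = φ s := le_antisymm (h9 ▸ h3 h2) (h3 h1)
  have h11 := h4 s''
  rw [h10, h5] at h11
  exact (Option.some_injective _ h11).symm

end leaves

variable {K : Type*} [CommRing K] {V : Type*} [Inhabited V] {n m : ℕ}

/-- the base function of a cell: the first letter of the block -/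
def bhead (n m : ℕ) (x : List (List V)) : (Fin n × Fin m) → V :=
  fun l => (x.getD l.1 []).headD default

/-- the chain map -/
noncomputable def th (K : Type*) [CommRing K] {V : Type*} [Inhabited V] (n m : ℕ) :
    ℕ → (Ch K (List V) →ₗ[K] Ch K ((Fin n × Fin m) → V))
  | 0 => linearCombination K (fun x => single [bhead n m x] 1)
  | j + 1 => linearCombination K
      (fun x => fillF K (leaves n m) (bhead n m x) (th K n m j (bdB K x)))

-- BEGIN TH1
/-- degree `0` -/
theorem del_th_zero (x : Ch K (List V)) :
    del K (th K n m 0 x) = eps K x • single ([] : List ((Fin n × Fin m) → V)) (1 : K) := by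
  induction x using Finsupp.induction_linear with
  | zero => simp
  | add x y hx hy => simp only [map_add, hx, hy, add_smul]
  | single w c =>
    rw [eps_single, th, Finsupp.linearCombination_single, map_smul, del_single, one_smul, delB,
      delB, map_zero, sub_zero]

theorem th1_single_succ (j : ℕ) (x : List (List V)) :
    th K n m (j + 1) (single x 1) =
      fillF K (leaves n m) (bhead n m x) (th K n m j (bdB K x)) := by
  rw [th, Finsupp.linearCombination_single, one_smul]

theorem th1_ext [DecidableEq V] {M : Type*} [AddCommMonoid M] [Module K M] {c : Finset V} {j : ℕ}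
    (f g : Ch K (List V) →ₗ[K] M)
    (hfg : ∀ x : List (List V), x.length = n → GC c j x → f (single x 1) = g (single x 1))
    (x : Ch K (List V)) (h : x ∈ Gd K n c j) : f x = g x := by
  unfold Gd at h
  rw [Finsupp.supported_eq_span_single] at h
  induction h using Submodule.span_induction with
  | mem y hy =>
    obtain ⟨z, hz, rfl⟩ := hy
    exact hfg z hz.1 hz.2
  | zero => rw [map_zero, map_zero]
  | add y z _ _ hy hz => rw [map_add, map_add, hy, hz]
  | smul a y _ hy => rw [map_smul, map_smul, hy]

/-- chain map: on a cell `x` of degree `j + 1`,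
`del (fillF (th j (bdB x))) = th j (bdB x) - fillF (del (th j (bdB x)))` and
`del (th j (bdB x)) = 0` (`bd_bd` and induction, or `eps_bdB` for `j = 0`). -/
theorem del_th [DecidableEq V] {c : Finset V} (j : ℕ) (x : Ch K (List V))
    (h : x ∈ Gd K n c (j + 1)) :
    del K (th K n m (j + 1) x) = th K n m j (bd K x) := by
  induction j generalizing x with
  | zero =>
    refine th1_ext (del K ∘ₗ th K n m (0 + 1)) (th K n m 0 ∘ₗ bd K) (fun y hy1 hy2 => ?_) x h
    simp only [LinearMap.comp_apply]
    have h0 : del K (th K n m 0 (bdB K y)) = 0 := by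
      rw [del_th_zero, eps_bdB (c := c) hy2, zero_smul]
    have h1 := fillF_spec (K := K) (leaves n m) mem_leaves (bhead n m y) (th K n m 0 (bdB K y))
    rw [h0, map_zero, add_zero] at h1
    rw [th1_single_succ, h1, bd_single, one_smul]
  | succ j ih =>
    refine th1_ext (del K ∘ₗ th K n m (j + 1 + 1)) (th K n m (j + 1) ∘ₗ bd K)
      (fun y hy1 hy2 => ?_) x h
    simp only [LinearMap.comp_apply]
    have h0 : del K (th K n m (j + 1) (bdB K y)) = 0 := by
      rw [ih _ (bdB_mem hy1 hy2)]
      have h2 : bdB K y = bd K (single y 1) := by rw [bd_single, one_smul]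
      rw [h2, bd_bd, map_zero]
    have h1 := fillF_spec (K := K) (leaves n m) mem_leaves (bhead n m y)
      (th K n m (j + 1) (bdB K y))
    rw [h0, map_zero, add_zero] at h1
    rw [th1_single_succ, h1, bd_single, one_smul]

theorem th1_bhead (τ : V → V) (x : List (List V)) (hx1 : x.length = n) (hx2 : ∀ t ∈ x, t ≠ []) :
    bhead n m (x.map (List.map τ)) = fun l => τ (bhead n m x l) := by
  funext l
  have h1 : (l.1 : ℕ) < x.length := by
    rw [hx1]
    exact l.1.2
  unfold bhead
  have h2 : (x.map (List.map τ)).getD l.1 [] = (x.getD l.1 []).map τ := by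
    simp [List.getD_eq_getElem?_getD, List.getElem?_map, List.getElem?_eq_getElem h1]
  rw [h2]
  have h3 : x.getD l.1 [] ≠ [] := by
    rw [List.getD_eq_getElem _ _ h1]
    exact hx2 _ (List.getElem_mem h1)
  cases h4 : x.getD l.1 [] with
  | nil => exact absurd h4 h3
  | cons a w => simp

/-- equivariance; `τ` any self map of the letters; all blocks of a good cell are nonempty -/
theorem th_map [DecidableEq V] {c : Finset V} (τ : V → V) (j : ℕ) (x : Ch K (List V))
    (h : x ∈ Gd K n c j) :
    th K n m j (mapL K (List.map τ) x) =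
      mapL K (fun (f : (Fin n × Fin m) → V) l => τ (f l)) (th K n m j x) := by
  induction j generalizing x with
  | zero =>
    refine th1_ext (th K n m 0 ∘ₗ mapL K (List.map τ))
      (mapL K (fun (f : (Fin n × Fin m) → V) l => τ (f l)) ∘ₗ th K n m 0)
      (fun y hy1 hy2 => ?_) x h
    simp only [LinearMap.comp_apply]
    rw [mapL_single, th, Finsupp.linearCombination_single, Finsupp.linearCombination_single,
      one_smul, one_smul, mapL_single, th1_bhead τ y hy1 (GC_ne hy2)]
    rfl
  | succ j ih =>
    refine th1_ext (th K n m (j + 1) ∘ₗ mapL K (List.map τ))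
      (mapL K (fun (f : (Fin n × Fin m) → V) l => τ (f l)) ∘ₗ th K n m (j + 1))
      (fun y hy1 hy2 => ?_) x h
    simp only [LinearMap.comp_apply]
    rw [mapL_single, th1_single_succ, th1_single_succ, fillF_nat, bdB_map,
      ih _ (bdB_mem hy1 hy2), th1_bhead τ y hy1 (GC_ne hy2)]
-- END TH1

-- BEGIN TH2
theorem th2_lin {α β : Type*} (L : (α →₀ K) →ₗ[K] (β →₀ K)) {x : α →₀ K} {s : β}
    (h : s ∈ (L x).support) : ∃ a ∈ x.support, s ∈ (L (single a 1)).support := by
  have h1 : L = linearCombination K (fun a => L (single a 1)) := by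
    refine Finsupp.lhom_ext' fun a => ?_
    ext
    simp
  rw [h1] at h
  exact lc_supp h

/-- supports: the functions run monotonically through the letters of the blocks, and all functions
of the list agree off a set of at most `j` leaves -/
theorem th_supp [DecidableEq V] {c : Finset V} (j : ℕ) (x : List (List V)) (h1 : x.length = n)
    (h2 : GC c j x) {A : List ((Fin n × Fin m) → V)}
    (hA : A ∈ (th K n m j (single x 1)).support) :
    A.length = j + 1 ∧ (∀ f ∈ A, ∀ i : Fin n, Mon (x.getD i []) (fun s : Fin m => f (i, s))) ∧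
      ∃ I : Finset (Fin n × Fin m), I.card ≤ j ∧ ∀ f ∈ A, ∀ g ∈ A, ∀ l ∉ I, f l = g l := by
  classical
  have hb : ∀ (j : ℕ) (x : List (List V)), x.length = n → GC c j x →
      ∀ l : Fin n × Fin m, (x.getD l.1 [])[0]? = some (bhead n m x l) := by
    intro j x h1 h2 l
    have h3 : (l.1 : ℕ) < x.length := by
      rw [h1]
      exact l.1.2
    have h4 : x.getD l.1 [] ≠ [] := by
      rw [List.getD_eq_getElem _ _ h3]
      exact GC_ne h2 _ (List.getElem_mem h3)
    unfold bhead
    cases h5 : x.getD l.1 [] with
    | nil => exact absurd h5 h4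
    | cons a w => simp
  have hbc : ∀ (x : List (List V)) (i : Fin n) (s s' : Fin m),
      bhead n m x (i, s) = bhead n m x (i, s') := fun _ _ _ _ => rfl
  have hbm : ∀ (j : ℕ) (x : List (List V)), x.length = n → GC c j x → ∀ i : Fin n,
      Mon (x.getD i []) (fun s : Fin m => bhead n m x (i, s)) := by
    intro j x h1 h2 i
    exact ⟨fun _ => 0, fun _ _ _ => le_rfl, fun s => hb j x h1 h2 (i, s)⟩
  induction j generalizing x A with
  | zero =>
    rw [th, Finsupp.linearCombination_single, one_smul] at hA
    have h3 : A = [bhead n m x] := Finset.mem_singleton.1 (Finsupp.support_single_subset hA)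
    subst h3
    refine ⟨rfl, fun f hf i => ?_, ∅, by simp, fun f hf g hg l _ => ?_⟩
    · rw [List.mem_singleton] at hf
      subst hf
      exact hbm 0 x h1 h2 i
    · rw [List.mem_singleton] at hf hg
      rw [hf, hg]
  | succ j ih =>
    rw [th1_single_succ] at hA
    obtain ⟨w, hw, hAw⟩ := th2_lin (fillF K (leaves n m) (bhead n m x)) hA
    obtain ⟨x', hx', hw'⟩ := th2_lin (th K n m j) hw
    have hgood := bdB_mem (K := K) h1 h2
    unfold Gd at hgood
    rw [Finsupp.mem_supported] at hgood
    obtain ⟨h3, h4⟩ := hgood hx'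
    obtain ⟨h5, h6, I, hI, h7⟩ := ih x' h3 h4 hw'
    obtain ⟨h8, h9⟩ := fillF_supp hAw
    refine ⟨by rw [h8, h5], ?_⟩
    rcases h9 with h9 | ⟨p, l0, r, hpr, h9⟩
    · refine ⟨fun f hf i => ?_, ∅, by simp, fun f hf g hg l _ => ?_⟩
      · rw [h9 f hf]
        exact hbm (j + 1) x h1 h2 i
      · rw [h9 f hf, h9 g hg]
    · have hI1 : Ini p.toFinset := ini_prefix hpr
      have hI2 : Ini (insert l0 p.toFinset) := by
        have h10 : leaves n m = (p ++ [l0]) ++ r := by rw [hpr]; simp
        have h11 := ini_prefix h10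
        have h12 : (p ++ [l0]).toFinset = insert l0 p.toFinset := by
          ext a
          simp [or_comm]
        rwa [h12] at h11
      refine ⟨fun f hf i => ?_, insert l0 I, ?_, fun f hf g hg l hl => ?_⟩
      · obtain ⟨f', hf', hff⟩ := h9 f hf
        have h10 : Mon (x.getD i []) (fun s : Fin m => f' (i, s)) :=
          (h6 f' hf' i).sublist (bdB_sublist hx' i)
        have h11 : ∀ S : Finset (Fin n × Fin m), Ini S →
            Mon (x.getD i []) (fun s : Fin m => sweep (bhead n m x) S f' (i, s)) := by
          intro S hS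
          by_cases hm : Nonempty (Fin m)
          · obtain ⟨s0⟩ := hm
            have h12 := h10.sweep (b := bhead n m x (i, s0)) (hb (j + 1) x h1 h2 (i, s0))
              (fun s => (i, s) ∈ S) (fun s s' hs h => hS i s s' hs h)
            exact h12
          · exact ⟨fun _ => 0, fun _ _ _ => le_rfl, fun s => absurd ⟨s⟩ hm⟩
        rcases hff with rfl | rfl
        · exact h11 _ hI1
        · exact h11 _ hI2
      · exact (Finset.card_insert_le _ _).trans (by omega)
      · rw [Finset.mem_insert, not_or] at hl
        obtain ⟨f', hf', hff⟩ := h9 f hf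
        obtain ⟨g', hg', hgg⟩ := h9 g hg
        have h10 : f' l = g' l := h7 f' hf' g' hg' l hl.2
        have h11 : (l ∈ insert l0 p.toFinset) = (l ∈ p.toFinset) := by
          rw [Finset.mem_insert]
          simp [hl.1]
        have h12 : ∀ h : (Fin n × Fin m) → V, sweep (bhead n m x) (insert l0 p.toFinset) h l =
            sweep (bhead n m x) p.toFinset h l := by
          intro h
          unfold sweep
          simp only [h11]
        have h13 : sweep (bhead n m x) p.toFinset f' l = sweep (bhead n m x) p.toFinset g' l := by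
          unfold sweep
          rw [h10]
        rcases hff with rfl | rfl <;> rcases hgg with rfl | rfl
        · exact h13
        · rw [h12, h13]
        · rw [h12, h13]
        · rw [h12, h12, h13]

/-- level sets of the functions are intervals in one block -/
theorem th_ivl [DecidableEq V] {c : Finset V} (j : ℕ) (x : List (List V)) (h1 : x.length = n)
    (h2 : GC c j x) {A : List ((Fin n × Fin m) → V)}
    (hA : A ∈ (th K n m j (single x 1)).support) : ∀ f ∈ A, Ivl f := by
  obtain ⟨_, h3, _⟩ := th_supp j x h1 h2 hA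
  intro f hf p p' he
  have h4 := (h3 f hf p.1).mem p.2
  have h5 := (h3 f hf p'.1).mem p'.2
  have h6 : f (p.1, p.2) = f (p'.1, p'.2) := he
  simp only [h6] at h4
  have h7 : (p.1 : ℕ) = (p'.1 : ℕ) := GC_disj h2 h4 h5
  have h8 : p.1 = p'.1 := Fin.ext h7
  refine ⟨h8, fun s hs1 hs2 => ?_⟩
  have h9 : (fun s : Fin m => f (p.1, s)) p.2 = (fun s : Fin m => f (p.1, s)) p'.2 := by
    show f (p.1, p.2) = f (p.1, p'.2)
    rw [h6, h8]
  exact (h3 f hf p.1).interval (GC_nodup h2 _) h9 hs1 hs2
-- END TH2

end Pool.Agent.MP_fd6bc6_al.BU
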