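import Pool.Agent.Lib.MP_fd6bc6_al.Mg.G008
import Pool.Agent.Lib.MP_fd6bc6_al.BU.Theta
import Pool.Agent.Lib.MP_fd6bc6_al.Mg.G009

/-! # Theorem C2' -/

set_option autoImplicit false

namespace Pool.Agent.MP_fd6bc6_al.BU

open Finsupp

section eval
variable {q r : ℕ} [Fact q.Prime] [NeZero r] {n m : ℕ}

/-- the functional on block chains of degree `j` -/
noncomputable def Ev (n m : ℕ) (ρ : List ((Fin n × Fin m) → ZMod q × Fin r) → ZMod q) (j : ℕ) :
    Ch (ZMod q) (List (ZMod q × Fin r)) →ₗ[ZMod q] ZMod q :=
  linearCombination (ZMod q) coc ∘ₗ psi (ZMod q) ρ (j + 1) ∘ₗ th (ZMod q) n m j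

-- BEGIN EV
theorem ev_lc_congr {K α : Type*} [CommRing K] {g h : α → K} {x : α →₀ K}
    (H : ∀ a ∈ x.support, g a = h a) :
    linearCombination K g x = linearCombination K h x := by
  rw [linearCombination_apply, linearCombination_apply]
  exact Finsupp.sum_congr (fun a ha => by rw [H a ha])

theorem ev_mapL {K A B : Type*} [CommRing K] (g : List B → K) (f : A → B) (x : Ch K A) :
    linearCombination K g (mapL K f x) = linearCombination K (fun w => g (w.map f)) x := by
  induction x using Finsupp.induction_linear with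
  | zero => simp
  | add x y hx hy => rw [map_add, map_add, map_add, hx, hy]
  | single w c => rw [mapL_single, linearCombination_single, linearCombination_single]

theorem ev_del {K A : Type*} [CommRing K] (g : List A → K) (x : Ch K A) :
    linearCombination K g (del K x) =
      linearCombination K (fun w => linearCombination K g (delB K w)) x := by
  induction x using Finsupp.induction_linear with
  | zero => simp
  | add x y hx hy => rw [map_add, map_add, map_add, hx, hy]
  | single w c => rw [del_single, linearCombination_single, map_smul]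

theorem ev_rot (ρ : List ((Fin n × Fin m) → ZMod q × Fin r) → ZMod q)
    (hρ : ∀ w, w ≠ [] → ∀ t : ZMod q, ρ (w.map (fun f l => rot t (f l))) = ρ w + t)
    (j : ℕ) (y : Ch (ZMod q) (List (ZMod q × Fin r))) (hy : Lad n j y) (t : ZMod q) :
    psi (ZMod q) ρ (j + 1) (th (ZMod q) n m j (rotB t y)) =
      mapL (ZMod q) (· + t) (psi (ZMod q) ρ (j + 1) (th (ZMod q) n m j y)) := by
  rw [rotB, th_map (c := Finset.univ) (rot t) j y (lad_mem hy)]
  exact psi_map ρ _ (· + t) (fun w hw => hρ w hw t) (j + 1) _

/-- EVALUATION: `Ev j z = 1` for the top `z` of a ladder of height `j`. -/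
theorem Ev_lad (ρ : List ((Fin n × Fin m) → ZMod q × Fin r) → ZMod q)
    (hρ : ∀ w, w ≠ [] → ∀ t : ZMod q, ρ (w.map (fun f l => rot t (f l))) = ρ w + t)
    (j : ℕ) (z : Ch (ZMod q) (List (ZMod q × Fin r))) (hz : Lad n j z) : Ev n m ρ j z = 1 := by
  induction j generalizing z with
  | zero =>
    have h0 : ∀ x : Ch (ZMod q) (List (ZMod q × Fin r)), Ev n m ρ 0 x = eps (ZMod q) x := by
      intro x
      induction x using Finsupp.induction_linear with
      | zero => simp
      | add x y hx hy => rw [map_add, map_add, hx, hy]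
      | single x c =>
        rw [eps_single]
        simp only [Ev, LinearMap.comp_apply]
        have h1 : th (ZMod q) n m 0 (single x c) = c • single [bhead n m x] 1 := by
          simp [th, linearCombination_single]
        have h2 : psi (ZMod q) ρ (0 + 1) (single [bhead n m x] 1) =
            single [ρ [bhead n m x]] 1 := by
          simp [psi, linearCombination_single, delB, consL_single]
        rw [h1, map_smul, map_smul, h2, linearCombination_single]
        simp [coc]
    rw [h0]
    exact hz.2
  | succ j ih =>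
    obtain ⟨hz1, y, hy, hbd⟩ := hz
    have hE : Ev n m ρ (j + 1) z =
        linearCombination (ZMod q) pot
          (psi (ZMod q) ρ (j + 1) (th (ZMod q) n m j (bd (ZMod q) z))) := by
      have h1 : Ev n m ρ (j + 1) z = linearCombination (ZMod q) coc
          (psi (ZMod q) ρ (j + 1 + 1) (th (ZMod q) n m (j + 1) z)) := rfl
      rw [h1, ← del_th j z hz1, ← del_psi, ev_del]
      apply ev_lc_congr
      intro w hw
      apply coc_eq
      rw [psi_len ρ _ _ hw]
      omega
    have hEy : linearCombination (ZMod q) coc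
        (psi (ZMod q) ρ (j + 1) (th (ZMod q) n m j y)) = 1 := ih y hy
    rw [hE, hbd]
    by_cases hj : Even j
    · refine Eq.trans ?_ hEy
      rw [if_pos hj, map_sub, map_sub, ev_rot ρ hρ j y hy 1, map_sub, ev_mapL]
      have h2 : ∀ x : Ch (ZMod q) (ZMod q),
          linearCombination (ZMod q) (fun w : List (ZMod q) => pot (w.map (· + 1))) x -
            linearCombination (ZMod q) pot x =
          linearCombination (ZMod q) (fun w : List (ZMod q) => pot (w.map (· + 1)) - pot w) x := by
        intro x
        induction x using Finsupp.induction_linear with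
        | zero => simp
        | add x y hx hy => rw [map_add, map_add, map_add, ← hx, ← hy]; ring
        | single w c =>
          rw [linearCombination_single, linearCombination_single,
            linearCombination_single, smul_sub]
      rw [h2]
      apply ev_lc_congr
      intro w hw
      apply pot_odd
      rw [psi_len ρ _ _ hw]
      exact hj.add_one
    · rw [if_neg hj]
      have h3 : psi (ZMod q) ρ (j + 1) (th (ZMod q) n m j (∑ t : ZMod q, rotB t y)) =
          ∑ t : ZMod q, mapL (ZMod q) (· + t)
            (psi (ZMod q) ρ (j + 1) (th (ZMod q) n m j y)) := by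
        rw [map_sum, map_sum]
        exact Finset.sum_congr rfl (fun t _ => ev_rot ρ hρ j y hy t)
      rw [h3, map_sum]
      refine Eq.trans ?_ hEy
      have h4 : ∀ x : Ch (ZMod q) (ZMod q),
          ∑ t : ZMod q, linearCombination (ZMod q) pot (mapL (ZMod q) (· + t) x) =
          linearCombination (ZMod q)
            (fun w : List (ZMod q) => ∑ t : ZMod q, pot (w.map (· + t))) x := by
        intro x
        induction x using Finsupp.induction_linear with
        | zero => simp
        | add x y hx hy =>
          rw [map_add, ← hx, ← hy, ← Finset.sum_add_distrib]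
          exact Finset.sum_congr rfl (fun t _ => by rw [map_add, map_add])
        | single w c =>
          rw [linearCombination_single, Finset.smul_sum]
          exact Finset.sum_congr rfl (fun t _ => by
            rw [mapL_single, linearCombination_single])
      rw [h4]
      apply ev_lc_congr
      intro w hw
      apply pot_even
      rw [psi_len ρ _ _ hw]
      exact (Nat.not_even_iff_odd.1 hj).add_one
-- END EV

end eval

section colour
variable {q r : ℕ} [Fact q.Prime] [NeZero r] {n m N : ℕ}

/-- the colours of the rotated functions of a list -/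
noncomputable def gam (c : ((Fin n × Fin m) → ℤ) → Fin N)
    (A : List ((Fin n × Fin m) → ZMod q × Fin r)) (t : ZMod q) : Finset (Fin N) :=
  (A.map (fun f => c (fun l => ((((f l).1 + t).val : ℕ) : ℤ)))).toFinset

/-- good lists: agreement off few leaves, and all level sets are intervals in one block -/
def GA (n m J : ℕ) (A : List ((Fin n × Fin m) → ZMod q × Fin r)) : Prop :=
  A ≠ [] ∧ (∃ I : Finset (Fin n × Fin m), I.card ≤ J ∧ ∀ f ∈ A, ∀ g ∈ A, ∀ l ∉ I, f l = g l) ∧
    ∀ f ∈ A, Ivl f

/-- the hypothesis on the colouring -/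
def HC (q r J : ℕ) (c : ((Fin n × Fin m) → ℤ) → Fin N) : Prop :=
  ∀ a a' g, It (St2 q) J (fun p => a p + 1) g → It (St1 q) r g a' → c a ≠ c a'

omit [NeZero r] in
/-- consecutive colour sets are disjoint -/
theorem gam_disj {J : ℕ} (c : ((Fin n × Fin m) → ℤ) → Fin N) (p0 : Fin n × Fin m)
    (hc : HC q r J c) (A : List ((Fin n × Fin m) → ZMod q × Fin r)) (hA : GA n m J A)
    (t : ZMod q) : Disjoint (gam c A t) (gam c A (t + 1)) := by
  classical
  rw [Finset.disjoint_left]
  intro s hs1 hs2
  simp only [gam, List.mem_toFinset, List.mem_map] at hs1 hs2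
  obtain ⟨f, hf, hfs⟩ := hs1
  obtain ⟨g, hg, hgs⟩ := hs2
  obtain ⟨_, ⟨I, hI, hI2⟩, hB⟩ := hA
  have h1 : It (St2 q) J (fun p => ((((f p).1 + t).val : ℕ) : ℤ) + 1)
      (fun p => ((((g p).1 + t).val : ℕ) : ℤ) + 1) := by
    refine It_of_agree p0 I J hI _ _ (fun p hp => ?_) (fun p => ?_)
    · simp only [hI2 g hg f hf p hp]
    · have h2 := ZMod.val_lt ((f p).1 + t)
      have h3 := ZMod.val_lt ((g p).1 + t)
      rw [abs_le]
      constructor
      · omega
      · omega
  exact hc _ _ _ h1 (It_of_ivl p0.1 g (hB g hg) t) (hfs.trans hgs.symm)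

/-- the cells of the ladder give good lists -/
theorem GA_of_th {J : ℕ} {j : ℕ} (hj : j ≤ J) (x : List (List (ZMod q × Fin r)))
    (h1 : x.length = n)
    (h2 : GC Finset.univ j x) {A : List ((Fin n × Fin m) → ZMod q × Fin r)}
    (hA : A ∈ (th (ZMod q) n m j (single x 1)).support) : GA n m J A := by
  obtain ⟨hlen, hval, I, hI1, hI2⟩ := th_supp j x h1 h2 hA
  refine ⟨?_, ⟨I, hI1.trans hj, hI2⟩, th_ivl j x h1 h2 hA⟩
  intro h
  rw [h] at hlen
  simp at hlen

omit [NeZero r] in
theorem c2_gam_map (c : ((Fin n × Fin m) → ℤ) → Fin N)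
    (A : List ((Fin n × Fin m) → ZMod q × Fin r)) (s : ZMod q) :
    gam c (A.map (fun f l => rot 1 (f l))) s = gam c A (s + 1) := by
  unfold gam
  rw [List.map_map]
  congr 1
  apply List.map_congr_left
  intro f _
  simp only [Function.comp, rot]
  congr 1
  funext l
  rw [add_assoc, add_comm 1 s]

omit [NeZero r] in
theorem c2_gam_sub (c : ((Fin n × Fin m) → ℤ) → Fin N)
    {A A' : List ((Fin n × Fin m) → ZMod q × Fin r)} (h : A'.Sublist A) (s : ZMod q) :
    gam c A' s ⊆ gam c A s := by
  intro x hx
  unfold gam at *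
  rw [List.mem_toFinset, List.mem_map] at *
  obtain ⟨f, hf, rfl⟩ := hx
  exact ⟨f, h.subset hf, rfl⟩

omit [NeZero r] in
theorem c2_gam_ne (c : ((Fin n × Fin m) → ℤ) → Fin N)
    {A : List ((Fin n × Fin m) → ZMod q × Fin r)} (h : A ≠ []) (s : ZMod q) :
    (gam c A s).Nonempty := by
  obtain ⟨f, A', rfl⟩ := List.exists_cons_of_ne_nil h
  exact ⟨c (fun l => ((((f l).1 + s).val : ℕ) : ℤ)), by simp [gam]⟩

omit [Fact q.Prime] [NeZero r] in
theorem c2_GA_sub {J : ℕ} {A A' : List ((Fin n × Fin m) → ZMod q × Fin r)} (h : A'.Sublist A)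
    (h' : A' ≠ []) (hA : GA n m J A) : GA n m J A' := by
  obtain ⟨_, ⟨I, hI, hI'⟩, hB⟩ := hA
  exact ⟨h', ⟨I, hI, fun f hf g hg => hI' f (h.subset hf) g (h.subset hg)⟩,
    fun f hf => hB f (h.subset hf)⟩

omit [NeZero r] in
theorem c2_gam_nc {J : ℕ} (c : ((Fin n × Fin m) → ℤ) → Fin N) (p0 : Fin n × Fin m)
    (hc : HC q r J c)
    (A : List ((Fin n × Fin m) → ZMod q × Fin r)) (hA : GA n m J A) :
    ∃ s, gam c A s ≠ gam c A 0 := by
  refine ⟨0 + 1, fun h => ?_⟩
  have h1 := gam_disj c p0 hc A hA 0
  rw [h] at h1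
  have h2 := c2_gam_ne c hA.1 (0 : ZMod q)
  exact h2.ne_empty (disjoint_self.mp h1)

end colour

theorem c2_lin_supp {K α β : Type*} [CommRing K] (F : (α →₀ K) →ₗ[K] (β →₀ K)) {x : α →₀ K} {s : β}
    (h : s ∈ (F x).support) : ∃ a ∈ x.support, s ∈ (F (single a 1)).support := th2_lin F h

/-- THEOREM C2'. -/
theorem C2' (N n : ℕ) (hn : 0 < n) : ∃ q : ℕ, ∀ m, 0 < m →
    ∀ c : ((Fin n × Fin m) → ℤ) → Fin N, ∃ a a' g : (Fin n × Fin m) → ℤ, c a = c a' ∧
      It (St2 q) (q * N) (fun p => a p + 1) g ∧ It (St1 q) (2 * N) g a' := by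
  classical
  obtain ⟨q, hqn, hq⟩ := Nat.exists_infinite_primes (n + 1)
  haveI : Fact q.Prime := ⟨hq⟩
  refine ⟨q, fun m hm c => ?_⟩
  by_cases hN : N = 0
  · subst hN
    exact (c 0).elim0
  by_contra hcon
  have hc : HC q (2 * N) (q * N) c := by
    intro a a' g h1 h2 he
    exact hcon ⟨a, a', g, he, h1, h2⟩
  haveI : NeZero (2 * N) := ⟨by omega⟩
  obtain ⟨r, hr⟩ := exists_phase (q := q) (Finset (Fin N))
  let l0 : Fin n × Fin m := (⟨0, hn⟩, ⟨0, hm⟩)
  let ρ : List ((Fin n × Fin m) → ZMod q × Fin (2 * N)) → ZMod q := fun A =>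
    if ∃ s, gam c A s ≠ gam c A 0 then r (gam c A) else ((A.headD (fun _ => 0)) l0).1
  have hρ1 : ∀ w : List ((Fin n × Fin m) → ZMod q × Fin (2 * N)), w ≠ [] →
      ρ (w.map (fun f l => rot 1 (f l))) = ρ w + 1 := by
    intro w hw
    have hg : gam c (w.map (fun f l => rot 1 (f l))) = fun s => gam c w (s + 1) := by
      funext s; exact c2_gam_map c w s
    by_cases hnc : ∃ s, gam c w s ≠ gam c w 0
    · have hnc' : ∃ s, gam c (w.map (fun f l => rot 1 (f l))) s ≠
          gam c (w.map (fun f l => rot 1 (f l))) 0 := by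
        by_contra hcc
        push Not at hcc
        obtain ⟨s, hs⟩ := hnc
        apply hs
        have e1 := hcc (s - 1)
        have e2 := hcc (0 - 1)
        rw [hg] at e1 e2
        simp only [sub_add_cancel] at e1 e2
        rw [e1, e2]
      simp only [ρ, if_pos hnc, if_pos hnc']
      rw [hg]
      exact hr _ hnc
    · have hnc' : ¬ ∃ s, gam c (w.map (fun f l => rot 1 (f l))) s ≠
          gam c (w.map (fun f l => rot 1 (f l))) 0 := by
        push Not at hnc ⊢
        intro s
        rw [hg]
        simp only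
        rw [hnc, hnc (0 + 1)]
      simp only [ρ, if_neg hnc, if_neg hnc']
      obtain ⟨f, w', rfl⟩ := List.exists_cons_of_ne_nil hw
      simp [rot]
  have hρ : ∀ w : List ((Fin n × Fin m) → ZMod q × Fin (2 * N)), w ≠ [] → ∀ t : ZMod q,
      ρ (w.map (fun f l => rot t (f l))) = ρ w + t := by
    intro w hw t
    have key : ∀ k : ℕ, ρ (w.map (fun f l => rot (k : ZMod q) (f l))) = ρ w + k := by
      intro k
      induction k with
      | zero => simp [rot]
      | succ k ih =>
        have e : w.map (fun f l => rot ((k + 1 : ℕ) : ZMod q) (f l)) =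
            (w.map (fun f l => rot (k : ZMod q) (f l))).map (fun f l => rot 1 (f l)) := by
          rw [List.map_map]
          apply List.map_congr_left
          intro f _
          funext l
          simp [rot, add_assoc]
        rw [e, hρ1 _ (by simpa using hw), ih]
        push_cast; ring
    have := key t.val
    rwa [ZMod.natCast_zmod_val] at this
  have hJ : q * N + n ≤ q * (2 * N) := by
    have : n ≤ q * N := by
      calc n ≤ q := by omega
        _ = q * 1 := (mul_one q).symm
        _ ≤ q * N := Nat.mul_le_mul_left q (Nat.one_le_iff_ne_zero.mpr hN)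
    nlinarith
  obtain ⟨z, hz⟩ := exists_lad (q := q) (r := 2 * N) n (q * N) hJ
  have h1 := Ev_lad (m := m) ρ hρ (q * N) z hz
  have hzG : z ∈ Gd (ZMod q) n Finset.univ (q * N) := lad_mem hz
  have h0 : Ev n m ρ (q * N) z = 0 := by
    simp only [Ev, LinearMap.comp_apply]
    rw [Finsupp.linearCombination_apply, Finsupp.sum]
    refine Finset.sum_eq_zero fun u hu => ?_
    have hlen := psi_len ρ _ _ hu
    obtain ⟨A, hA, hu'⟩ := c2_lin_supp _ hu
    obtain ⟨x, hx, hA'⟩ := c2_lin_supp _ hA
    have hxG : x.length = n ∧ GC Finset.univ (q * N) x := by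
      have := (Finsupp.mem_supported _ _).mp hzG hx
      exact this
    have hAG : GA n m (q * N) A := GA_of_th le_rfl x hxG.1 hxG.2 hA'
    have hAl := (th_supp _ x hxG.1 hxG.2 hA').1
    have hrep := psi_rep (K := ZMod q) ρ (fun A => GA n m (q * N) A)
      (fun A => ∑ t : ZMod q, (gam c A t).card)
      (fun w hw w' hw' hne => c2_GA_sub (delB_supp hw').1 hne hw)
      (fun w hw hG => by
        have : 1 ≤ (gam c w 0).card := Finset.card_pos.mpr (c2_gam_ne c hw 0)
        exact this.trans (Finset.single_le_sum (f := fun t => (gam c w t).card)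
          (fun _ _ => Nat.zero_le _) (Finset.mem_univ (0 : ZMod q))))
      (fun w hG w' hw' hne => by
        have hsub := fun s => c2_gam_sub c (delB_supp hw').1 s
        have hG' := c2_GA_sub (delB_supp hw').1 hne hG
        by_cases hall : ∀ s, gam c w' s = gam c w s
        · right
          have hf : gam c w' = gam c w := funext hall
          simp only [ρ, if_pos (c2_gam_nc c l0 hc w hG), if_pos (c2_gam_nc c l0 hc w' hG')]
          rw [hf]
        · left
          push Not at hall
          obtain ⟨s, hs⟩ := hall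
          refine Finset.sum_lt_sum (fun t _ => Finset.card_le_card (hsub t))
            ⟨s, Finset.mem_univ _, Finset.card_lt_card ?_⟩
          exact Finset.ssubset_iff_subset_ne.mpr ⟨hsub s, hs⟩)
      (q * N + 1) A hAG.1 hAl hAG hu'
    rcases hrep with hrep | hrep
    · rw [coc_rep u hrep, smul_zero]
    · exfalso
      have hsz : ∑ t : ZMod q, (gam c A t).card ≤ q * N := by
        calc ∑ t : ZMod q, (gam c A t).card ≤ ∑ _t : ZMod q, N :=
              Finset.sum_le_sum fun t _ => by
                simpa using Finset.card_le_univ (gam c A t)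
          _ = q * N := by simp [ZMod.card]
      rw [hlen] at hrep
      omega
  rw [h0] at h1
  exact zero_ne_one h1

end Pool.Agent.MP_fd6bc6_al.BU
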